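import Pool.Agent.T9h21.DP.Spec

/-!
# Contents of nested sets are almost independent, and second moments
-/

open Finset

set_option autoImplicit false

namespace Pool.Agent.T9h29.DP

open Pool.Agent.T9h21.DP

section basic

variable {m : ℕ}

lemma N_pos : (0 : ℝ) < ((m : ℝ) + 1) ^ (m + 1) := by positivity

lemma avg_add (F G : Cfg m → ℝ) : avg (fun X => F X + G X) = avg F + avg G := by
  unfold avg
  rw [← add_div, ← Finset.sum_add_distrib]

lemma avg_sum {ι : Type*} (s : Finset ι) (F : ι → Cfg m → ℝ) :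
    avg (fun X => ∑ i ∈ s, F i X) = ∑ i ∈ s, avg (F i) := by
  unfold avg
  rw [← Finset.sum_div, Finset.sum_comm]

lemma avg_const_mul (c : ℝ) (F : Cfg m → ℝ) : avg (fun X => c * F X) = c * avg F := by
  unfold avg
  rw [← Finset.mul_sum, mul_div_assoc]

lemma avg_const (c : ℝ) : avg (fun _ : Cfg m => c) = c := by
  unfold avg
  rw [Finset.sum_const, Finset.card_univ]
  have h : (Fintype.card (Cfg m) : ℝ) = ((m : ℝ) + 1) ^ (m + 1) := by
    simp [Cfg]
  rw [nsmul_eq_mul, h]
  field_simp

lemma avg_mono {F G : Cfg m → ℝ} (h : ∀ X, F X ≤ G X) : avg F ≤ avg G := by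
  unfold avg
  exact div_le_div_of_nonneg_right (Finset.sum_le_sum fun X _ => h X) N_pos.le

lemma ind_nonneg (D : Finset (Cut m)) (X : Cfg m) (I : Finset (Fin (m + 1))) : 0 ≤ ind D X I := by
  unfold ind; split_ifs <;> norm_num

lemma ind_le_one (D : Finset (Cut m)) (X : Cfg m) (I : Finset (Fin (m + 1))) : ind D X I ≤ 1 := by
  unfold ind; split_ifs <;> norm_num

lemma ind_sq (D : Finset (Cut m)) (X : Cfg m) (I : Finset (Fin (m + 1))) :
    ind D X I * ind D X I = ind D X I := by
  unfold ind; split_ifs <;> norm_num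

lemma avg_cs (F : Cfg m → ℝ) : avg F ≤ √(avg fun X => F X ^ 2) := by
  apply Real.le_sqrt_of_sq_le
  have h1 : 0 ≤ avg (fun X => (F X - avg F) ^ 2) := by
    unfold avg
    exact div_nonneg (Finset.sum_nonneg fun X _ => sq_nonneg _) N_pos.le
  have h2 : avg (fun X => (F X - avg F) ^ 2) = avg (fun X => F X ^ 2) - avg F ^ 2 := by
    have h3 : (fun X => (F X - avg F) ^ 2) =
        fun X => (F X ^ 2 + (-2 * avg F) * F X) + avg F ^ 2 := by
      funext X; ring
    rw [h3, avg_add, avg_add, avg_const_mul, avg_const]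
    ring
  linarith

/-- `k` disjoint subsets of the same size -/
lemma exists_disjoint {α : Type*} [DecidableEq α] (c : ℕ) : ∀ (k : ℕ) (J : Finset α),
    k * c ≤ J.card → ∃ f : ℕ → Finset α, (∀ a < k, f a ⊆ J ∧ (f a).card = c) ∧
      ∀ a < k, ∀ b < k, a ≠ b → Disjoint (f a) (f b) := by
  intro k
  induction k with
  | zero => exact fun J _ => ⟨fun _ => ∅, by simp, by simp⟩
  | succ k ih =>
    intro J hJ
    obtain ⟨T, hT, hTc⟩ := Finset.exists_subset_card_eq (s := J) (n := c) (by nlinarith)
    obtain ⟨f, hf, hd⟩ := ih (J \ T) (by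
      rw [Finset.card_sdiff_of_subset hT, hTc]
      have : (k + 1) * c = k * c + c := by ring
      omega)
    refine ⟨fun a => if a < k then f a else T, ?_, ?_⟩
    · intro a ha
      by_cases h : a < k
      · simp only [h, if_true]
        exact ⟨(hf a h).1.trans Finset.sdiff_subset, (hf a h).2⟩
      · simp only [h, if_false]
        exact ⟨hT, hTc⟩
    · have key : ∀ a < k, Disjoint (f a) T := fun a ha =>
        Finset.disjoint_of_subset_left (hf a ha).1 Finset.sdiff_disjoint
      intro a ha b hb hab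
      by_cases h : a < k <;> by_cases h' : b < k
      · simp only [h, h', if_true]; exact hd a h b h' hab
      · simp only [h, h', if_true, if_false]; exact key a h
      · simp only [h, h', if_true, if_false]; exact (key b h').symm
      · omega

end basic

/-- (10) -/
theorem corr (m : ℕ) : S_sym m → S_dis m → S_corr m := by
  intro hsym hdis D I J k hIJ hk hkI
  obtain ⟨f, hf, hd⟩ := exists_disjoint I.card k J hkI
  set c : ℝ := 2 * (I.card : ℝ) ^ 2 / (m + 1) with hc
  have hc0 : 0 ≤ c := by positivity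
  set μ : ℝ := avg fun X => ind D X I with hμ
  have hμ1 : μ ≤ 1 := by
    have := avg_mono (m := m) (F := fun X => ind D X I) (G := fun _ => 1)
      (fun X => ind_le_one D X I)
    rwa [avg_const] at this
  have hkR : (0 : ℝ) < k := by exact_mod_cast hk
  -- means
  have h1 : ∀ a < k, (avg fun X => ind D X (f a)) = μ := by
    intro a ha
    have := hsym D I I (f a) (f a) (subset_refl _) (subset_refl _) (hf a ha).2.symm
      (hf a ha).2.symm
    simp only [ind_sq] at this
    exact this.symm
  have h2 : ∀ a < k, (avg fun X => ind D X (f a) * ind D X J) =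
      avg fun X => ind D X I * ind D X J := by
    intro a ha
    exact (hsym D I J (f a) J hIJ (hf a ha).1 (hf a ha).2.symm rfl).symm
  set Z : Cfg m → ℝ := fun X => (1 / k : ℝ) * ∑ a ∈ range k, ind D X (f a) with hZ
  have h3 : (avg fun X => Z X * ind D X J) = avg fun X => ind D X I * ind D X J := by
    have e : (fun X => Z X * ind D X J) =
        fun X => (1 / k : ℝ) * ∑ a ∈ range k, ind D X (f a) * ind D X J := by
      funext X
      rw [hZ, mul_assoc, Finset.sum_mul]
    rw [e, avg_const_mul, avg_sum]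
    rw [Finset.sum_congr rfl fun a ha => h2 a (Finset.mem_range.1 ha)]
    rw [Finset.sum_const, Finset.card_range, nsmul_eq_mul]
    field_simp
  have h4 : avg Z = μ := by
    rw [hZ, avg_const_mul, avg_sum]
    rw [Finset.sum_congr rfl fun a ha => h1 a (Finset.mem_range.1 ha)]
    rw [Finset.sum_const, Finset.card_range, nsmul_eq_mul]
    field_simp
  -- second moment of `Z`
  have h5 : (avg fun X => Z X ^ 2) ≤ μ ^ 2 + (1 / k + c) := by
    have e : (fun X => Z X ^ 2) =
        fun X => (1 / k : ℝ) ^ 2 * ∑ a ∈ range k, ∑ b ∈ range k, ind D X (f a) * ind D X (f b) := by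
      funext X
      rw [hZ]
      simp only
      rw [mul_pow, sq (∑ a ∈ range k, ind D X (f a)), Finset.sum_mul_sum]
    rw [e, avg_const_mul, avg_sum]
    have h6 : ∀ a ∈ range k, (avg fun X => ∑ b ∈ range k, ind D X (f a) * ind D X (f b)) ≤
        1 + k * (μ ^ 2 + c) := by
      intro a ha
      rw [avg_sum]
      have ha' := Finset.mem_range.1 ha
      have h7 : ∀ b ∈ range k, (avg fun X => ind D X (f a) * ind D X (f b)) ≤
          (if a = b then 1 else 0) + (μ ^ 2 + c) := by
        intro b hb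
        have hb' := Finset.mem_range.1 hb
        by_cases hab : a = b
        · subst hab
          simp only [ind_sq, if_true]
          rw [h1 a ha']
          have : 0 ≤ μ ^ 2 := sq_nonneg _
          linarith
        · rw [if_neg hab, zero_add]
          have := hdis D (f a) (f b) (hd a ha' b hb' hab)
          rw [h1 a ha', h1 b hb', (hf a ha').2, (hf b hb').2] at this
          refine this.trans (le_of_eq ?_)
          rw [hc]
          ring
      refine (Finset.sum_le_sum h7).trans ?_
      rw [Finset.sum_add_distrib, Finset.sum_const, Finset.card_range, nsmul_eq_mul]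
      rw [Finset.sum_ite_eq (range k) a (fun _ => (1 : ℝ)), if_pos ha]
    have h8 : ∑ a ∈ range k, (avg fun X => ∑ b ∈ range k, ind D X (f a) * ind D X (f b)) ≤
        k * (1 + k * (μ ^ 2 + c)) := by
      refine (Finset.sum_le_sum h6).trans ?_
      rw [Finset.sum_const, Finset.card_range, nsmul_eq_mul]
    refine (mul_le_mul_of_nonneg_left h8 (by positivity)).trans (le_of_eq ?_)
    field_simp
    ring
  -- conclusion
  have h9 : (avg fun X => ind D X I * ind D X J) - μ * (avg fun X => ind D X J) =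
      avg fun X => (Z X - μ) * ind D X J := by
    have e : (fun X => (Z X - μ) * ind D X J) =
        fun X => Z X * ind D X J + (-μ) * ind D X J := by
      funext X; ring
    rw [e, avg_add, avg_const_mul, h3]
    ring
  have h10 : (avg fun X => (Z X - μ) * ind D X J) ≤ √(avg fun X => (Z X - μ) ^ 2) := by
    refine (avg_cs _).trans (Real.sqrt_le_sqrt (avg_mono fun X => ?_))
    rw [mul_pow]
    have i0 := ind_nonneg D X J
    have i1 := ind_le_one D X J
    have : ind D X J ^ 2 ≤ 1 := by nlinarith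
    nlinarith [sq_nonneg (Z X - μ)]
  have h11 : (avg fun X => (Z X - μ) ^ 2) ≤ 1 / k + c := by
    have e : (fun X => (Z X - μ) ^ 2) = fun X => (Z X ^ 2 + (-2 * μ) * Z X) + μ ^ 2 := by
      funext X; ring
    rw [e, avg_add, avg_add, avg_const_mul, avg_const, h4]
    nlinarith [h5]
  have h12 := h10.trans (Real.sqrt_le_sqrt h11)
  rw [← h9] at h12
  linarith

/-! ### Second moments -/

lemma card_lt {n s : ℕ} (hs : s ≤ n) : (univ.filter fun u : Fin n => (u : ℕ) < s).card = s := by
  have h : (univ.filter fun u : Fin n => (u : ℕ) < s) =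
      (univ : Finset (Fin s)).map (Fin.castLEEmb hs) := by
    ext u
    simp only [mem_filter, mem_univ, true_and, mem_map, Fin.castLEEmb_apply]
    constructor
    · intro h; exact ⟨⟨u, h⟩, by ext; simp⟩
    · rintro ⟨v, rfl⟩; simp
  rw [h, Finset.card_map, Finset.card_univ, Fintype.card_fin]

lemma card_arcL {m : ℕ} (l : Fin (m + 1)) {s : ℕ} (hs : s ≤ m + 1) : (arcL l s).card = s := by
  refine Eq.trans ?_ (card_lt hs)
  unfold arcL
  refine Finset.card_bij' (fun t _ => t - l) (fun u _ => u + l) ?_ ?_ ?_ ?_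
  · intro t ht; simpa using ht
  · intro t ht
    simp only [mem_filter, mem_univ, true_and, add_sub_cancel_right] at ht ⊢
    exact ht
  · intro t _; simp
  · intro t _; simp

lemma card_arcR {m : ℕ} (r : Fin (m + 1)) {s : ℕ} (hs : s ≤ m + 1) : (arcR r s).card = s := by
  refine Eq.trans ?_ (card_lt hs)
  unfold arcR
  refine Finset.card_bij' (fun t _ => r - 1 - t) (fun u _ => r - 1 - u) ?_ ?_ ?_ ?_
  · intro t ht; simpa using ht
  · intro t ht
    simp only [mem_filter, mem_univ, true_and, sub_sub_cancel] at ht ⊢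
    exact ht
  · intro t _; simp
  · intro t _; simp

/-- second moment for a nested family -/
lemma mom_aux {m : ℕ} (hsym : S_sym m) (hcorr : S_corr m) (L R : ℕ) (D : Finset (Cut m))
    (hL : 1 ≤ L) (hR : 2 * L ^ 4 ≤ R) (hm : 4 * L ^ 4 * (R ^ L) ^ 2 ≤ m + 1)
    (hP : Phi L R D < 2) (A : ℕ → Finset (Fin (m + 1))) (hAc : ∀ i < L, (A i).card = R ^ (i + 1))
    (hAm : ∀ i j, i ≤ j → A i ⊆ A j) :
    (avg fun X => (∑ i ∈ range L, ind D X (A i)) ^ 2) ≤ 7 := by
  have hR1 : 1 ≤ R := le_trans (by
    have : 1 ≤ L ^ 4 := Nat.one_le_pow _ _ hL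
    omega) hR
  have hRL : R ^ L ≤ m + 1 := by
    have h1 : 1 ≤ L ^ 4 := Nat.one_le_pow _ _ hL
    have h2 : 1 ≤ R ^ L := Nat.one_le_pow _ _ hR1
    nlinarith
  have hle : ∀ i < L, R ^ (i + 1) ≤ R ^ L := fun i hi => Nat.pow_le_pow_right hR1 hi
  set p : ℕ → ℝ := fun i => avg fun X => ind D X (A i) with hp
  have hp0 : ∀ i, 0 ≤ p i := fun i => by
    have := avg_mono (m := m) (F := fun _ => 0) (G := fun X => ind D X (A i))
      (fun X => ind_nonneg D X _)
    rwa [avg_const] at this
  have hsum : ∑ i ∈ range L, p i = Phi L R D := by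
    unfold Phi
    refine Finset.sum_congr rfl fun i hi => ?_
    have hi' := Finset.mem_range.1 hi
    have hc : (A i).card = (arcL (0 : Fin (m + 1)) (R ^ (i + 1))).card := by
      rw [hAc i hi', card_arcL 0 ((hle i hi').trans hRL)]
    have := hsym D (A i) (A i) (arcL 0 (R ^ (i + 1))) (arcL 0 (R ^ (i + 1)))
      (subset_refl _) (subset_refl _) hc hc
    simp only [ind_sq] at this
    exact this
  have hLR : (0 : ℝ) < (L : ℝ) ^ 2 := by positivity
  -- the error
  have herr : ∀ i < L, √(1 / (R : ℝ) + 2 * ((A i).card : ℝ) ^ 2 / (m + 1)) ≤ 1 / (L : ℝ) ^ 2 := by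
    intro i hi
    apply Real.sqrt_le_iff.2
    refine ⟨by positivity, ?_⟩
    have hRR : (2 : ℝ) * (L : ℝ) ^ 4 ≤ R := by exact_mod_cast hR
    have hmm : (4 : ℝ) * (L : ℝ) ^ 4 * ((R : ℝ) ^ L) ^ 2 ≤ (m : ℝ) + 1 := by exact_mod_cast hm
    have hL4 : (0 : ℝ) < (L : ℝ) ^ 4 := by positivity
    have h1 : 1 / (R : ℝ) ≤ 1 / (2 * (L : ℝ) ^ 4) :=
      one_div_le_one_div_of_le (by positivity) hRR
    have hRp : (0 : ℝ) < (R : ℝ) ^ L := by
      have : (0 : ℝ) < R := by exact_mod_cast hR1
      positivity
    have h2 : 2 * ((A i).card : ℝ) ^ 2 / (m + 1) ≤ 1 / (2 * (L : ℝ) ^ 4) := by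
      have h3 : ((A i).card : ℝ) ≤ (R : ℝ) ^ L := by
        rw [hAc i hi]
        exact_mod_cast hle i hi
      have h4 : ((A i).card : ℝ) ^ 2 ≤ ((R : ℝ) ^ L) ^ 2 :=
        pow_le_pow_left₀ (Nat.cast_nonneg _) h3 2
      rw [div_le_div_iff₀ (by positivity) (by positivity)]
      nlinarith
    refine (add_le_add h1 h2).trans (le_of_eq ?_)
    field_simp
    norm_num
  -- pairs
  have hpair : ∀ i < L, ∀ j < L, i < j → (avg fun X => ind D X (A i) * ind D X (A j)) ≤
      p i * p j + 1 / (L : ℝ) ^ 2 := by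
    intro i hi j hj hij
    have h1 : R * (A i).card ≤ (A j).card := by
      rw [hAc i hi, hAc j hj, ← pow_succ']
      exact Nat.pow_le_pow_right hR1 (by omega)
    exact (hcorr D (A i) (A j) R (hAm i j hij.le) hR1 h1).trans
      (add_le_add (le_refl _) (herr i hi))
  have hpair2 : ∀ i ∈ range L, ∀ j ∈ range L, (avg fun X => ind D X (A i) * ind D X (A j)) ≤
      (if i = j then p i else 0) + (p i * p j + 1 / (L : ℝ) ^ 2) := by
    intro i hi j hj
    have hi' := Finset.mem_range.1 hi
    have hj' := Finset.mem_range.1 hj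
    rcases lt_trichotomy i j with h | h | h
    · rw [if_neg h.ne, zero_add]
      exact hpair i hi' j hj' h
    · subst h
      simp only [ind_sq, if_true]
      have : 0 ≤ p i * p i + 1 / (L : ℝ) ^ 2 := by
        have := mul_nonneg (hp0 i) (hp0 i)
        positivity
      linarith
    · rw [if_neg h.ne', zero_add]
      have := hpair j hj' i hi' h
      have e : (fun X => ind D X (A i) * ind D X (A j)) =
          fun X => ind D X (A j) * ind D X (A i) := by
        funext X; ring
      rw [e, mul_comm (p i)]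
      exact this
  have e : (fun X => (∑ i ∈ range L, ind D X (A i)) ^ 2) =
      fun X => ∑ i ∈ range L, ∑ j ∈ range L, ind D X (A i) * ind D X (A j) := by
    funext X
    rw [sq, Finset.sum_mul_sum]
  rw [e, avg_sum]
  have h1 : ∑ i ∈ range L, (avg fun X => ∑ j ∈ range L, ind D X (A i) * ind D X (A j)) ≤
      ∑ i ∈ range L, ∑ j ∈ range L,
        ((if i = j then p i else 0) + (p i * p j + 1 / (L : ℝ) ^ 2)) := by
    refine Finset.sum_le_sum fun i hi => ?_
    rw [avg_sum]
    exact Finset.sum_le_sum fun j hj => hpair2 i hi j hj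
  have h2 : ∑ i ∈ range L, ∑ j ∈ range L,
      ((if i = j then p i else 0) + (p i * p j + 1 / (L : ℝ) ^ 2)) =
      Phi L R D + (Phi L R D ^ 2 + 1) := by
    simp only [Finset.sum_add_distrib]
    congr 1
    · rw [← hsum]
      refine Finset.sum_congr rfl fun i hi => ?_
      rw [Finset.sum_ite_eq (range L) i (fun _ => p i), if_pos hi]
    · congr 1
      · rw [← Finset.sum_mul_sum, hsum, sq]
      · rw [Finset.sum_const, Finset.sum_const, Finset.card_range, smul_smul, nsmul_eq_mul]
        push_cast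
        field_simp
  have h3 : 0 ≤ Phi L R D := by
    rw [← hsum]
    exact Finset.sum_nonneg fun i _ => hp0 i
  have h4 : Phi L R D ^ 2 ≤ 4 := by nlinarith
  calc _ ≤ _ := h1
    _ = _ := h2
    _ ≤ 7 := by linarith

/-- (11) -/
theorem mom (m : ℕ) : S_sym m → S_corr m → S_mom m := by
  intro hsym hcorr L R D l hL hR hm hP
  have hR1 : 1 ≤ R := le_trans (by
    have : 1 ≤ L ^ 4 := Nat.one_le_pow _ _ hL
    omega) hR
  have hRL : R ^ L ≤ m + 1 := by
    have h1 : 1 ≤ L ^ 4 := Nat.one_le_pow _ _ hL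
    have h2 : 1 ≤ R ^ L := Nat.one_le_pow _ _ hR1
    nlinarith
  have hle : ∀ i < L, R ^ (i + 1) ≤ m + 1 := fun i hi => (Nat.pow_le_pow_right hR1 hi).trans hRL
  constructor
  · refine mom_aux hsym hcorr L R D hL hR hm hP (fun i => arcL l (R ^ (i + 1)))
      (fun i hi => card_arcL l (hle i hi)) fun i j hij t ht => ?_
    unfold arcL at ht ⊢
    rw [mem_filter] at ht ⊢
    exact ⟨ht.1, ht.2.trans_le (Nat.pow_le_pow_right hR1 (by omega))⟩
  · refine mom_aux hsym hcorr L R D hL hR hm hP (fun i => arcR l (R ^ (i + 1)))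
      (fun i hi => card_arcR l (hle i hi)) fun i j hij t ht => ?_
    unfold arcR at ht ⊢
    rw [mem_filter] at ht ⊢
    exact ⟨ht.1, ht.2.trans_le (Nat.pow_le_pow_right hR1 (by omega))⟩

end Pool.Agent.T9h29.DP
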